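import Pool.Agent.R304.UN.Core

/-! Sets of universality contain open sets of tori up to few zeros. -/

open Complex Filter Topology Set MeasureTheory

namespace Pool.Agent.R304.US

open ZU H370 H370.A2 H370.AS H295SI TH803TW TH803UC R304.UN

open Classical in
/-- **sets of universality contain open sets of tori up to few zeros** -/
theorem core_set {K : Set ℂ} (hK : IsCompact K) (hKs : K ⊆ {z | 1 / 2 < z.re ∧ z.re < 1})
    (f : ℂ → ℂ) {ε' ε : ℝ} (hlt : ε' < ε) {D : ℝ} (hD0 : 0 < D)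
    (hD : ∃ᶠ X : ℝ in atTop, ENNReal.ofReal (D * X) ≤ volume (SS ε' K f ∩ Icc 0 X))
    {η : ℝ} (hη : 0 < η) : ∃ (M : ℕ) (U : Set (UnitAddTorus (Fin (pr M).card))) (E : Set ℝ),
      IsOpen U ∧ D - η ≤ (haarT _ U).toReal ∧
      (∀ t : ℝ, torusPt (al M) t ∈ U → t ∉ E → t ∈ SS ε K f) ∧
      ∃ T0 : ℝ, 10 ≤ T0 ∧ ∀ T : ℝ, T0 ≤ T →
        NU riemannZeta T (2 * T) (fun t => t ∈ E) ≤ η * (NN riemannZeta T (2 * T) : ℝ) := by
  classical
  -- `f` is bounded on `K`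
  obtain ⟨Cf, hCf0, hCf⟩ : ∃ Cf : ℝ, 0 ≤ Cf ∧ ∀ z ∈ K, ‖f z‖ ≤ Cf := by
    obtain ⟨X, hX1, hX2⟩ := (hD.and_eventually (eventually_gt_atTop 0)).exists
    have h1 : 0 < volume (SS ε' K f ∩ Icc 0 X) :=
      lt_of_lt_of_le (ENNReal.ofReal_pos.2 (mul_pos hD0 hX2)) hX1
    have h2 : (SS ε' K f ∩ Icc 0 X).Nonempty := by
      by_contra hcon
      rw [Set.not_nonempty_iff_eq_empty] at hcon
      rw [hcon, measure_empty] at h1
      exact lt_irrefl _ h1
    obtain ⟨t, ht, -⟩ := h2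
    exact bounded_of_mem hK hKs ht
  obtain ⟨a, b, B, h1, h2, h3, h4, hsub⟩ := exists_rectW K hK hKs
  obtain ⟨R, hR⟩ : ∃ R, R = Cf + |ε| + |ε'| + 1 := ⟨_, rfl⟩
  have hR0 : 0 < R := by
    have := abs_nonneg ε
    have := abs_nonneg ε'
    linarith
  obtain ⟨θ, hθ⟩ : ∃ θ, θ = min (1 / 2) ((ε - ε') / (12 * R)) := ⟨_, rfl⟩
  have hεε : 0 < ε - ε' := by linarith
  have hθ0 : 0 < θ := by rw [hθ]; positivity
  have hθ1 : θ ≤ 1 / 2 := by rw [hθ]; exact min_le_left _ _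
  have hθR : θ * (2 * R) ≤ (ε - ε') / 6 := by
    have : θ ≤ (ε - ε') / (12 * R) := by rw [hθ]; exact min_le_right _ _
    calc θ * (2 * R) ≤ (ε - ε') / (12 * R) * (2 * R) := by gcongr
      _ = (ε - ε') / 6 := by field_simp; ring
  obtain ⟨η1, hη1⟩ : ∃ η1, η1 = η / 5 := ⟨_, rfl⟩
  have hη10 : 0 < η1 := by rw [hη1]; positivity
  obtain ⟨M1, hM1⟩ := bad_measure a b B θ η1 h1 h2 h3 h4 hθ0 hη10
  obtain ⟨M2, hM2⟩ := bad_zeros a b B θ η1 h1 h2 h3 h4 hθ0 hη10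
  obtain ⟨M, hM⟩ : ∃ M, M = max M1 M2 := ⟨_, rfl⟩
  obtain ⟨X1', hX1', hmeas⟩ := hM1 M (by rw [hM]; exact le_max_left _ _)
  obtain ⟨T1, hT1, hzer⟩ := hM2 M (by rw [hM]; exact le_max_right _ _)
  have hθθ : ε' + (ε - ε') / 3 < ε' + 2 * (ε - ε') / 3 := by linarith
  obtain ⟨X2', hX2', htime⟩ := time_le (by linarith) M hsub f hθθ hη10
  set μ : ℝ := (haarT _ (VV M K f (ε' + 2 * (ε - ε') / 3))).toReal with hμ
  -- comparison of the densities
  have hDμ : D ≤ μ + 3 * η1 := by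
    obtain ⟨X, hX1, hX2⟩ := (hD.and_eventually (eventually_ge_atTop (max X1' X2'))).exists
    have hXa : X1' ≤ X := (le_max_left _ _).trans hX2
    have hXb : X2' ≤ X := (le_max_right _ _).trans hX2
    have hX0 : 0 < X := hX1'.trans_le hXa
    have hcov : SS ε' K f ∩ Icc 0 X ⊆
        ({t : ℝ | torusPt (al M) t ∈ VV M K f (ε' + (ε - ε') / 3)} ∩ Icc 0 X) ∪
          (bad M a b B θ ∩ Icc 0 X) := by
      rintro t ⟨ht1, ht2⟩
      by_cases htb : t ∈ bad M a b B θ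
      · exact Or.inr ⟨htb, ht2⟩
      · exact Or.inl ⟨(close_iff hlt hsub hCf hR hθ1 hθ0.le hθR htb).1 ht1, ht2⟩
    have h5 := hX1.trans ((measure_mono hcov).trans (measure_union_le _ _))
    have h6 := h5.trans (add_le_add (htime X hXb) (hmeas X hXa))
    rw [← ENNReal.ofReal_add (by positivity) (by positivity)] at h6
    have h7 := (ENNReal.ofReal_le_ofReal_iff (by positivity)).mp h6
    have h8 : D * X ≤ (μ + 3 * η1) * X := by
      refine h7.trans ?_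
      nlinarith
    exact le_of_mul_le_mul_right h8 hX0
  refine ⟨M, VV M K f (ε' + 2 * (ε - ε') / 3), bad M a b B θ, VV_open (by linarith) M hsub f _,
    by linarith, fun t ht htb => (close_iff hlt hsub hCf hR hθ1 hθ0.le hθR htb).2 ht,
    T1, hT1, fun T hT => (hzer T hT).trans ?_⟩
  apply mul_le_mul_of_nonneg_right _ (Nat.cast_nonneg _)
  linarith

end Pool.Agent.R304.US
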