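import Pool.Agent.R482.BSP.Main
import Pool.Agent.R304.US.Set

set_option autoImplicit false

/-! # Pairs of simple critical zeros in open subsets of tori, off a set with few zeros

The proof is that of `Pool.Agent.R482.BSP.pairs_bohr` (helper482) for a smaller set of zeros. -/

namespace Pool.Agent.R304.US

open Complex Filter Topology Set MeasureTheory
open H370 H370.A2 H370.AS H295SI TH803TW TH803UC
open Pool.Agent.R482.BSP
open Pool.Agent.TH850.UV (cnt cnt_eq NS mS mS_nonneg nv2)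
open Pool.Agent.R319.WB (ind ind_nonneg nn_loc nn nn_eq nn_block)

/-- removing the points of a set with few zeros -/
lemma few_E {A B : ℝ} (hA : 1 ≤ A) (P : ℝ → Prop) (E : Set ℝ) :
    ((SZ A B P).ncard : ℝ) ≤ ((SZ_finite (B := B) hA (fun t => P t ∧ t ∉ E)).toFinset.card : ℝ) +
      NU riemannZeta A B (fun t => t ∈ E) := by
  classical
  have hinj : Function.Injective fun t : ℝ => (1 / 2 + I * t : ℂ) := by
    intro a b hab
    have := congrArg Complex.im hab
    simpa using this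
  set S1 := (SZ_finite (B := B) hA (fun t => P t ∧ t ∉ E)).toFinset with hS1
  set S2 := (SZ_finite (B := B) hA (fun t => t ∈ E)).toFinset with hS2
  have hsub : SZ A B P ⊆ ((S1 ∪ S2 : Finset ℝ) : Set ℝ) := by
    intro t ht
    rw [Finset.coe_union, Set.mem_union, Finset.mem_coe, Finset.mem_coe, hS1, hS2,
      Set.Finite.mem_toFinset, Set.Finite.mem_toFinset]
    by_cases hE : t ∈ E
    · exact Or.inr ⟨ht.1, hE⟩
    · exact Or.inl ⟨ht.1, ht.2, hE⟩
  have h1 := Set.ncard_le_ncard hsub (Finset.finite_toSet _)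
  rw [Set.ncard_coe_finset] at h1
  have h2 : (S2.card : ℝ) ≤ NU riemannZeta A B (fun t => t ∈ E) := by
    unfold NU
    have hs : S2.image (fun t : ℝ => (1 / 2 + I * t : ℂ)) ⊆
        (Zf riemannZeta A B).filter (fun s => s.im ∈ E) := by
      intro s hs
      rw [Finset.mem_image] at hs
      obtain ⟨x, hx, rfl⟩ := hs
      rw [hS2, Set.Finite.mem_toFinset] at hx
      obtain ⟨⟨h1, h2, h3, h4⟩, h5⟩ := hx
      rw [Finset.mem_filter, mem_Zf good_zeta hA]
      refine ⟨⟨?_, ?_, ?_, ?_, h3⟩, ?_⟩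
      · simp
      · simp; norm_num
      · simp; exact h1
      · simp; linarith
      · simpa using h5
    calc (S2.card : ℝ) = ∑ s ∈ S2.image (fun t : ℝ => (1 / 2 + I * t : ℂ)), (1 : ℝ) := by
          rw [Finset.sum_const, nsmul_eq_mul, mul_one, Finset.card_image_of_injective _ hinj]
      _ ≤ ∑ s ∈ S2.image (fun t : ℝ => (1 / 2 + I * t : ℂ)), (mult riemannZeta s : ℝ) := by
          refine Finset.sum_le_sum fun s hs' => ?_
          have h5 := hs hs'
          rw [Finset.mem_filter, mem_Zf good_zeta hA] at h5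
          have h6 : 1 ≤ mult riemannZeta s :=
            H370.Loc.mult_pos' good_zeta (by linarith [h5.1.2.2.1]) h5.1.2.2.2.2
          exact_mod_cast h6
      _ ≤ ∑ s ∈ (Zf riemannZeta A B).filter (fun s => s.im ∈ E), (mult riemannZeta s : ℝ) :=
          Finset.sum_le_sum_of_subset_of_nonneg hs fun s _ _ => Nat.cast_nonneg _
      _ = _ := by
          congr 1
  have h3 : (((SZ A B P).ncard : ℕ) : ℝ) ≤ (S1.card : ℝ) + (S2.card : ℝ) := by
    exact_mod_cast h1.trans (Finset.card_union_le _ _)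
  linarith

/-- **pairs of simple critical zeros in open subsets of tori, in all long windows** -/
theorem pairs_bohrE {ε : ℝ} (hε : 0 < ε) (hε1 : ε ≤ 1) : ∃ L : ℝ, 0 < L ∧
    ∀ (k : ℕ) (α : Fin k → ℝ), (∀ n : Fin k → ℤ, ∑ j, (n j : ℝ) * α j = 0 → n = 0) →
    ∀ U : Set (UnitAddTorus (Fin k)), IsOpen U → ∃ κ T0 : ℝ, 0 < κ ∧ 10 ≤ T0 ∧
      ∀ T : ℝ, T0 ≤ T → ∀ hT1 : 1 ≤ T, ∀ E : Set ℝ,
      NU riemannZeta T (2 * T) (fun t => t ∈ E) ≤ ε / 64 * (NN riemannZeta T (2 * T) : ℝ) →
      ∀ a b : ℝ, 0 ≤ a → a + L ≤ b → b ≤ κ * Real.log T →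
      (345 / 1000 * (haarT k U).toReal - ε) * (b - a) * (NN riemannZeta T (2 * T) : ℝ) ≤
        PP (SZ_finite (A := T) (B := 2 * T) hT1 (fun t => torusPt α t ∈ U ∧ t ∉ E)).toFinset
          (2 * Real.pi * a / Real.log T) (2 * Real.pi * b / Real.log T) := by
  classical
  have hpi := Real.pi_pos
  have hpi3 := Real.pi_gt_three
  have hpi2 : 1 ≤ Real.pi ^ 2 := by nlinarith
  obtain ⟨C, Tv, hC, hTv, hnv⟩ := nv2 1 le_rfl
  obtain ⟨C2, hC2, hloc⟩ := nn_loc
  obtain ⟨C3, T3, hC3, hT3, hblk⟩ := nn_block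
  set q : ℝ := max 1 (16 * (2 + C) / ε) with hq
  have hq1 : 1 ≤ q := le_max_left _ _
  have hq0 : 0 < q := by linarith
  have hq2 : 16 * (2 + C) ≤ q * ε := by
    have : 16 * (2 + C) / ε ≤ q := le_max_right _ _
    rwa [div_le_iff₀ hε] at this
  set g : ℝ := q ^ 2 with hg
  have hg0 : 0 < g := by positivity
  have hg1 : 1 ≤ g := by rw [hg]; nlinarith
  refine ⟨27 * g / ε, by positivity, fun k α hα U hU => ?_⟩
  set u : ℝ := (haarT k U).toReal with hu
  have hu0 : 0 ≤ u := ENNReal.toReal_nonneg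
  have hu1 : u ≤ 1 := by
    have := prob_le_one (μ := haarT k) (s := U)
    have h2 := ENNReal.toReal_mono ENNReal.one_ne_top this
    simpa using h2
  have hε32 : 0 < ε / 32 := by positivity
  obtain ⟨V, G, hV, hVU, hG0, hG1, hVm, hGm⟩ := between hU hε32
  have hap := APm_torus hα G
  have hGc : Continuous fun t => G (torusPt α t) := G.continuous.comp (torus_cont α)
  obtain ⟨δ, hδ, hunif⟩ := unif_ap hap hε32
  obtain ⟨T1, hT1, hmean⟩ := mean_up hap hGc hε32
  obtain ⟨p, hp, T2, hT2, hX⟩ := torusU good_zeta dens_zeta hα hV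
    (show 0 < ε / 64 by positivity)
  set κ : ℝ := min δ 1 / (4 * Real.pi) with hκ
  have hmin : 0 < min δ 1 := lt_min hδ one_pos
  have hκ0 : 0 < κ := by positivity
  have ev : ∀ᶠ T : ℝ in atTop, g * Real.log g ≤ 1 * Real.log T ∧
      64 * Real.pi * C3 / ε ≤ Real.log T ∧ (4 * Real.pi * C2 + 1) * 16 / (3 * ε) ≤ T ∧
      4 * Real.pi * g / min δ 1 ≤ Real.log T := by
    refine ((Real.tendsto_log_atTop.eventually_ge_atTop _).mono fun T h => by
      rw [one_mul]; exact h).and ((Real.tendsto_log_atTop.eventually_ge_atTop _).and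
      ((eventually_ge_atTop _).and (Real.tendsto_log_atTop.eventually_ge_atTop _)))
  obtain ⟨T5, hT5⟩ := ev.exists_forall_of_atTop
  refine ⟨κ, max (max (max Tv T1) (max T2 T3)) T5, hκ0,
    ((hTv.trans (le_max_left _ _)).trans (le_max_left _ _)).trans (le_max_left _ _), ?_⟩
  intro T hT hT1' E hE a b ha hab hb
  have q1 : Tv ≤ T := (((le_max_left _ _).trans (le_max_left _ _)).trans (le_max_left _ _)).trans hT
  have q2 : T1 ≤ T := (((le_max_right _ _).trans (le_max_left _ _)).trans (le_max_left _ _)).trans hT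
  have q3 : T2 ≤ T := (((le_max_left _ _).trans (le_max_right _ _)).trans (le_max_left _ _)).trans hT
  have q4 : T3 ≤ T := (((le_max_right _ _).trans (le_max_right _ _)).trans (le_max_left _ _)).trans hT
  obtain ⟨e1, e2, e3, e4⟩ := hT5 T ((le_max_right _ _).trans hT)
  have hT10 : 10 ≤ T := hTv.trans q1
  have hTpos : 0 < T := by linarith
  set L : ℝ := Real.log T with hL
  have hLpos : 0 < L := Real.log_pos (by linarith)
  set h : ℝ := 2 * Real.pi * g / L with hh
  have hh0 : 0 < h := by positivity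
  have hhδ : h ≤ min δ 1 / 2 := by
    rw [hh, div_le_iff₀ hLpos]
    rw [div_le_iff₀ hmin] at e4
    linarith
  have hδ1 : min δ 1 ≤ δ := min_le_left _ _
  have h11 : min δ 1 ≤ 1 := min_le_right _ _
  -- the finite sets
  set S := (SZ_finite (A := T) (B := 2 * T) hT1' (fun t => torusPt α t ∈ V ∧ t ∉ E)).toFinset with hS
  have hSU : S ⊆ (SZ_finite (A := T) (B := 2 * T) hT1'
      (fun t => torusPt α t ∈ U ∧ t ∉ E)).toFinset := by
    intro x hx
    rw [hS, Set.Finite.mem_toFinset] at hx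
    rw [Set.Finite.mem_toFinset]
    exact ⟨hx.1, hVU hx.2.1, hx.2.2⟩
  refine le_trans ?_ (PP_mono hSU _ _)
  have hSm : ∀ x ∈ S, (T < x ∧ x ≤ 2 * T) ∧ torusPt α x ∈ V := by
    intro x hx
    rw [hS, Set.Finite.mem_toFinset] at hx
    exact ⟨⟨hx.1.1, hx.1.2.1⟩, hx.2.1⟩
  set NT : ℝ := (NN riemannZeta T (2 * T) : ℝ) with hNT
  have hNT0 : 0 ≤ NT := Nat.cast_nonneg _
  have hblk' : |NT - T * L / (2 * Real.pi)| ≤ C3 * T := by
    have := hblk T q4
    rwa [nn_eq hT1'] at this
  obtain ⟨n1, n2⟩ := abs_le.1 hblk'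
  -- the number of points
  have hcard : (6725 / 10000 * u - ε / 16) * NT ≤ (S.card : ℝ) := by
    have h1 := (hX T q3).1
    have h2 := X1_le_ncard hT1' (B := 2 * T) (P := fun t => torusPt α t ∈ V) hp
    have h3 := few_E hT1' (B := 2 * T) (fun t => torusPt α t ∈ V) E
    have h4 : (6725 / 10000 * u - 3 * ε / 64) * NT ≤
        ((2 - cc 1) * (haarT k V).toReal - ε / 64) * NT := by
      apply mul_le_mul_of_nonneg_right _ hNT0
      have h5 := cc_lt
      have h6 : 0 ≤ (haarT k V).toReal := ENNReal.toReal_nonneg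
      have h7 : 6725 / 10000 * (haarT k V).toReal ≤ (2 - cc 1) * (haarT k V).toReal := by
        apply mul_le_mul_of_nonneg_right _ h6
        linarith
      linarith
    have h8 : (6725 / 10000 * u - ε / 16) * NT = (6725 / 10000 * u - 3 * ε / 64) * NT -
        ε / 64 * NT := by ring
    have h9 : ((SZ T (2 * T) (fun t => torusPt α t ∈ V)).ncard : ℝ) ≤
        (S.card : ℝ) + NU riemannZeta T (2 * T) (fun t => t ∈ E) := h3
    have h10 : (X1 riemannZeta T (2 * T) p : ℝ) ≤
      ((SZ T (2 * T) (fun t => torusPt α t ∈ V)).ncard : ℝ) := h2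
    rw [h8]
    linarith
  -- the truncated counts
  obtain ⟨v1, v2⟩ := hnv T q1 g hg0 e1
  have hV2 : ∫ t in T..(2 * T), ((cnt t h : ℝ) - g) ^ 2 ≤ T * ((1 + C) * g) := by
    have h1 := (abs_le.1 v2).2
    exact alg_V hTpos hg1 hC.le hpi2 (by linarith)
  have hΦ := f_lower (A := T) (B := 2 * T) (h := h) (g := g) (κ := q) (by linarith) hh0.le hg0 hq0
    S (fun x hx => (hSm x hx).1.2) (c := fun t => (cnt t h : ℝ))
    (fun t ht => nS_le_cnt hT1' hh0.le _ ht.1 ht.2) v1 hV2
  set card' : ℝ := ((S.filter (fun x => T + h ≤ x)).card : ℝ) with hc'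
  have hcard' : (S.card : ℝ) - C2 * L ≤ card' := by
    have h1 := few_left (A := T) (B := 2 * T) (h := h) hT1' (by linarith) hh0.le
      (fun t => torusPt α t ∈ V ∧ t ∉ E)
    have h2 := hloc T hT10 T (T + h) (by linarith) (by linarith) (by linarith) (by linarith)
    have h3 : (S.card : ℝ) - nn T (T + h) ≤ card' := h1
    linarith
  set Φ : ℝ := (h * card' - T * ((1 + C) * g) / (2 * q) - q / 2 * (2 * T - T)) / g with hΦd
  have e2' : 64 * Real.pi * C3 ≤ L * ε := by
    rwa [div_le_iff₀ hε] at e2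
  have hf5 := alg_card (u := u) (S := (S.card : ℝ)) hε hu1 hTpos hLpos (Nat.cast_nonneg _)
    (by linarith) e2' hcard
  have hΦ1 : (6725 / 10000 * u - ε / 8) * T - 2 * Real.pi * C2 ≤ Φ :=
    alg_Phi hTpos hq0 hLpos hq2 hg hh hcard' hf5 hΦd
  -- the weight
  set r : ℝ → ℝ := fun t => G (torusPt α t) + ε / 32 with hr
  have hrc : Continuous r := hGc.add continuous_const
  have hrint : ∫ t in T..(2 * T), r t ≤ (u + ε / 16) * T := by
    have h1 : ∫ t in T..(2 * T), r t = (∫ t in T..(2 * T), G (torusPt α t)) + ε / 32 * T := by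
      rw [hr]
      rw [intervalIntegral.integral_add (hGc.intervalIntegrable _ _) (by simp),
        intervalIntegral.integral_const, smul_eq_mul]
      ring
    rw [h1]
    have h2 := hmean T q2
    have h3 : ((∫ x, G x ∂(haarT k)) + ε / 32) * T ≤ (u + ε / 32) * T := by gcongr
    linarith
  -- the cells
  set j0 : ℕ := ⌈a / g⌉₊ + 1 with hj0
  set j1 : ℕ := ⌊b / g⌋₊ with hj1
  have hbpos : 0 ≤ b := by
    have : 0 ≤ 27 * g / ε := by positivity
    linarith
  have hLL : 27 * g ≤ (b - a) * ε := by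
    have : 27 * g / ε ≤ b - a := by linarith
    rwa [div_le_iff₀ hε] at this
  have hba : 27 * g ≤ b - a := by
    have hba0 : 0 ≤ b - a := by
      have : 0 ≤ 27 * g / ε := by positivity
      linarith
    exact alg_ba hε1 hba0 hLL
  have hjj : (b - a) / g - 3 ≤ (j1 : ℝ) - j0 := by
    have h1 := Nat.lt_floor_add_one (b / g)
    have h2 := Nat.ceil_lt_add_one (show 0 ≤ a / g by positivity)
    rw [hj0, hj1, sub_div]
    push_cast
    linarith
  have hjj0 : 0 ≤ (b - a) / g - 3 := by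
    rw [sub_nonneg, le_div_iff₀ hg0]
    linarith
  have hj : j0 ≤ j1 := by
    have : (j0 : ℝ) ≤ j1 := by linarith
    exact_mod_cast this
  have hja : 2 * Real.pi * a / L ≤ ((j0 : ℝ) - 1) * h := by
    have h1 := Nat.le_ceil (a / g)
    have e : ((j0 : ℝ) - 1) = (⌈a / g⌉₊ : ℝ) := by rw [hj0]; push_cast; ring
    rw [e]
    calc 2 * Real.pi * a / L = a / g * h := by rw [hh]; field_simp
      _ ≤ (⌈a / g⌉₊ : ℝ) * h := by gcongr
  have hjb : (j1 : ℝ) * h ≤ 2 * Real.pi * b / L := by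
    have h1 := Nat.floor_le (show 0 ≤ b / g by positivity)
    calc (j1 : ℝ) * h ≤ b / g * h := by gcongr
      _ = 2 * Real.pi * b / L := by rw [hh]; field_simp
  have hbδ : 2 * Real.pi * b / L ≤ min δ 1 / 2 := by
    rw [div_le_iff₀ hLpos]
    calc 2 * Real.pi * b ≤ 2 * Real.pi * (κ * L) := by gcongr
      _ = min δ 1 / 2 * L := by rw [hκ]; field_simp; ring
  have hmain := pure_pairs (A := T) (B := 2 * T) (h := h) (g := g) (a := 2 * Real.pi * a / L)
    (b := 2 * Real.pi * b / L) (by linarith) hh0 hg0 S hj hja hjb (r := r)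
    (hrc.intervalIntegrable _ _) (fun t _ => by
      have := hG0 (torusPt α t)
      simp only [hr]
      linarith) (fun t _ x hx hxt => by
      have h1 := (abs_le.1 (hunif x t (hxt.trans (by linarith)))).2
      have h2 := hG1 _ (hSm x hx).2
      simp only [hr]
      linarith) hΦ
  set P := PP S (2 * Real.pi * a / L) (2 * Real.pi * b / L) with hP
  have hP0 : 0 ≤ P := PP_nonneg _ _ _
  set Y : ℝ := 345 / 1000 * u - ε / 2 with hY
  have hD : Y * T ≤ 2 * Φ - j1 * h - ∫ t in T..(2 * T), r t := by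
    have h1 : (4 * Real.pi * C2 + 1) * 16 ≤ T * (3 * ε) := by
      rwa [div_le_iff₀ (by positivity)] at e3
    have h2 : (j1 : ℝ) * h ≤ 1 := by linarith
    exact alg_D h1 h2 hΦ1 hrint hY
  by_cases hYs : Y ≤ 0
  · have h1 : 345 / 1000 * u - ε ≤ 0 := by linarith
    have h2 : (345 / 1000 * u - ε) * (b - a) * NT ≤ 0 :=
      mul_nonpos_of_nonpos_of_nonneg (mul_nonpos_of_nonpos_of_nonneg h1 (by linarith)) hNT0
    exact h2.trans hP0
  · push Not at hYs
    have hD0 : 0 ≤ Y * T := by positivity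
    have h1 : ((b - a) / g - 3) * (g ^ 2 * (Y * T)) ≤ h * P := by
      refine le_trans ?_ hmain
      apply mul_le_mul hjj _ (by positivity) (hjj0.trans hjj)
      apply mul_le_mul_of_nonneg_left hD (by positivity)
    have h2 : (b - a - 3 * g) * (Y * (T * L / (2 * Real.pi))) ≤ P := alg_fin hLpos hg0 hh h1
    have hZ0 : 0 ≤ T * L / (2 * Real.pi) := by positivity
    have h4 : (1 - ε / 8) * (b - a) * Y * (T * L / (2 * Real.pi)) ≤ P := by
      refine le_trans ?_ h2
      have h5 : (1 - ε / 8) * (b - a) ≤ b - a - 3 * g := alg_h5 hε (by linarith) hLL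
      calc (1 - ε / 8) * (b - a) * Y * (T * L / (2 * Real.pi)) =
          ((1 - ε / 8) * (b - a)) * (Y * (T * L / (2 * Real.pi))) := by ring
        _ ≤ _ := by gcongr
    refine le_trans ?_ h4
    have h6 : NT ≤ (1 + ε / 8) * (T * L / (2 * Real.pi)) := by
      have g2 := alg_NT hTpos hC3.le e2'
      linarith
    have h7 := final_alg (Y := Y) hε hε1 (by rw [hY]; linarith) (show 0 ≤ b - a by linarith) hZ0
      hNT0 h6 hYs
    have h8 : 345 / 1000 * u - ε = Y - ε / 2 := by rw [hY]; ring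
    rw [h8]
    exact h7

end Pool.Agent.R304.US
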